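import Pool.Agent.Y178.LF.Main

/-!
# `(n - 1)`-forms on strongly `F`-regular isolated singularities need not lift

For every prime `p`, every `n ≥ 2` with `p ∣ n + 1` (for each `p` these are infinitely many
dimensions `n`) and every algebraically closed field `k` of characteristic `p` there is a normal
affine variety `X` of dimension `n` over `k` which is strongly `F`-regular (so the pair `(X, 0)` is
globally `F`-regular), has exactly one singular point and has a log resolution, and for which
regular `(n - 1)`-forms do not lift to any proper birational model `Y ⟶ X`, in particular not to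
any log resolution.

The example is `X = {t ^ p = f(x_1, …, x_n)}`, where `f` is a general member of the Dwork pencil
`∏ x_j + λ ∑ x_j ^ n`.
-/

set_option autoImplicit false

open AlgebraicGeometry CategoryTheory

universe u

namespace Pool.Agent.Results.MP_0afa72_ag.IsolatedNonLifting

open Pool.Agent.Y178.LF

theorem result (p n : ℕ) (hp : p.Prime) (hn : 2 ≤ n) (hpn : p ∣ n + 1) (k : Type u) [Field k]
    [IsAlgClosed k] [CharP k p] :
    ∃ (R : Type u) (_ : CommRing R) (_ : IsDomain R) (_ : Algebra k R),
      Algebra.FiniteType k R ∧ IsIntegrallyClosed R ∧ ringKrullDim R = n ∧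
      IsStronglyFRegular p R ∧
      (∃ o : Spec (CommRingCat.of R), IsClosed {o} ∧ ∀ x : Spec (CommRingCat.of R),
        IsSmoothAt n (Spec.map (CommRingCat.ofHom (algebraMap k R))) x ↔ x ≠ o) ∧
      (∃ (Y : Scheme.{u}) (_ : IsIntegral Y) (f : Y ⟶ Spec (CommRingCat.of R)),
        IsLogResolution n f (Spec.map (CommRingCat.ofHom (algebraMap k R)))) ∧
      ∀ (Y : Scheme.{u}) (_ : IsIntegral Y) (f : Y ⟶ Spec (CommRingCat.of R)),
        IsProper f → IsBirational f →
        ¬ FormsLift n (n - 1) f (Spec.map (CommRingCat.ofHom (algebraMap k R))) :=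
  main p n hp hn hpn k

end Pool.Agent.Results.MP_0afa72_ag.IsolatedNonLifting
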